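import Pool.Agent.Helper458.Dav.Defs

set_option autoImplicit false

/-!
Project HW: measurability of the Hilbert transform of an integrable function.
-/

open MeasureTheory Filter Topology Set
open scoped ENNReal NNReal Real

namespace Pool.Agent.U876.HW

open Pool.Dav

/-- The kernel of the truncated transform as an indicator function. -/
noncomputable def kf (f : ℝ → ℂ) (ε x y : ℝ) : ℂ :=
  {y : ℝ | ε < |x - y|}.indicator (fun y => f y / ((x : ℂ) - (y : ℂ))) y

theorem meas_set (ε x : ℝ) : MeasurableSet {y : ℝ | ε < |x - y|} :=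
  measurableSet_lt measurable_const (by fun_prop)

theorem truncH_kf (f : ℝ → ℂ) (ε x : ℝ) : truncH f ε x = (1 / (π : ℂ)) * ∫ y, kf f ε x y := by
  unfold truncH kf
  rw [integral_indicator (meas_set ε x)]

theorem truncH_congr {f g : ℝ → ℂ} (h : f =ᵐ[volume] g) (ε x : ℝ) :
    truncH f ε x = truncH g ε x := by
  unfold truncH
  congr 1
  apply setIntegral_congr_ae (meas_set ε x)
  filter_upwards [h] with y hy _
  rw [hy]

theorem hasHilbert_congr {f g : ℝ → ℂ} (h : f =ᵐ[volume] g) (x : ℝ) (v : ℂ) :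
    HasHilbert f x v ↔ HasHilbert g x v := by
  unfold HasHilbert
  rw [show (fun ε : ℝ => truncH f ε x) = fun ε : ℝ => truncH g ε x from
    funext fun ε => truncH_congr h ε x]

theorem hilbert_eq_of_iff {f g : ℝ → ℂ} {x : ℝ} (h : ∀ v, HasHilbert f x v ↔ HasHilbert g x v) :
    hilbert f x = hilbert g x := by
  have e : HasHilbert f x = HasHilbert g x := funext fun v => propext (h v)
  unfold hilbert
  rw [e]

theorem hilbert_congr {f g : ℝ → ℂ} (h : f =ᵐ[volume] g) : hilbert f = hilbert g :=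
  funext fun x => hilbert_eq_of_iff (hasHilbert_congr h x)

theorem hilbert_eq {f : ℝ → ℂ} {x : ℝ} {v : ℂ} (h : HasHilbert f x v) : hilbert f x = v := by
  have hex : ∃ v, HasHilbert f x v := ⟨v, h⟩
  have h1 : hilbert f x = hex.choose := by
    unfold hilbert
    rw [dif_pos hex]
  rw [h1]
  exact tendsto_nhds_unique hex.choose_spec h

theorem hilbert_eq_zero {f : ℝ → ℂ} {x : ℝ} (h : ¬ ∃ v, HasHilbert f x v) : hilbert f x = 0 := by
  unfold hilbert
  rw [dif_neg h]

theorem kf_meas {f : ℝ → ℂ} (hf : Measurable f) (ε : ℝ) :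
    Measurable (fun p : ℝ × ℝ => kf f ε p.1 p.2) := by
  have h1 : MeasurableSet {p : ℝ × ℝ | ε < |p.1 - p.2|} :=
    measurableSet_lt measurable_const (by fun_prop)
  have h2 : Measurable (fun p : ℝ × ℝ => f p.2 / ((p.1 : ℂ) - (p.2 : ℂ))) := by fun_prop
  have h3 := h2.indicator h1
  have h4 : (fun p : ℝ × ℝ => kf f ε p.1 p.2) = {p : ℝ × ℝ | ε < |p.1 - p.2|}.indicator
      (fun p : ℝ × ℝ => f p.2 / ((p.1 : ℂ) - (p.2 : ℂ))) := by
    funext p
    unfold kf
    by_cases hp : ε < |p.1 - p.2|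
    · rw [indicator_of_mem (show p.2 ∈ {y : ℝ | ε < |p.1 - y|} from hp),
        indicator_of_mem (show p ∈ {p : ℝ × ℝ | ε < |p.1 - p.2|} from hp)]
    · rw [indicator_of_notMem (show p.2 ∉ {y : ℝ | ε < |p.1 - y|} from hp),
        indicator_of_notMem (show p ∉ {p : ℝ × ℝ | ε < |p.1 - p.2|} from hp)]
  rw [h4]
  exact h3

theorem truncH_meas {f : ℝ → ℂ} (hf : Measurable f) (ε : ℝ) :
    Measurable (fun x => truncH f ε x) := by
  have h1 : StronglyMeasurable (fun p : ℝ × ℝ => kf f ε p.1 p.2) := (kf_meas hf ε).stronglyMeasurable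
  have h2 : StronglyMeasurable (fun x => ∫ y, kf f ε x y) := h1.integral_prod_right'
  have h3 : (fun x => truncH f ε x) = fun x => (1 / (π : ℂ)) * ∫ y, kf f ε x y :=
    funext fun x => truncH_kf f ε x
  rw [h3]
  exact h2.measurable.const_mul _

theorem kf_bound (f : ℝ → ℂ) {ε₀ ε : ℝ} (h0 : 0 < ε₀) (h : ε₀ ≤ ε) (x y : ℝ) :
    ‖kf f ε x y‖ ≤ ‖f y‖ / ε₀ := by
  unfold kf
  by_cases hy : y ∈ {y : ℝ | ε < |x - y|}
  · rw [indicator_of_mem hy]
    have hy' : ε < |x - y| := hy
    rw [norm_div, ← Complex.ofReal_sub, Complex.norm_real, Real.norm_eq_abs]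
    apply div_le_div_of_nonneg_left (norm_nonneg _) h0 (h.trans hy'.le)
  · rw [indicator_of_notMem hy, norm_zero]
    positivity

theorem truncH_right {f : ℝ → ℂ} (hf : Integrable f) (hm : Measurable f) (x : ℝ) {ε₀ : ℝ}
    (h0 : 0 < ε₀) : Tendsto (fun ε => truncH f ε x) (𝓝[>] ε₀) (𝓝 (truncH f ε₀ x)) := by
  have h1 : Tendsto (fun ε => ∫ y, kf f ε x y) (𝓝[>] ε₀) (𝓝 (∫ y, kf f ε₀ x y)) := by
    apply tendsto_integral_filter_of_dominated_convergence (fun y => ‖f y‖ / ε₀)
    · exact Eventually.of_forall fun ε =>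
        ((kf_meas hm ε).comp (measurable_prodMk_left (x := x))).aestronglyMeasurable
    · filter_upwards [self_mem_nhdsWithin] with ε hε
      exact Eventually.of_forall fun y => kf_bound f h0 (le_of_lt hε) x y
    · exact hf.norm.div_const _
    · refine Eventually.of_forall fun y => ?_
      by_cases hy : ε₀ < |x - y|
      · have hev : ∀ᶠ ε in 𝓝[>] ε₀, kf f ε x y = kf f ε₀ x y := by
          have := (Iio_mem_nhds hy)
          filter_upwards [mem_nhdsWithin_of_mem_nhds this] with ε hε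
          have h2 : y ∈ {y : ℝ | ε < |x - y|} := hε
          have h3 : y ∈ {y : ℝ | ε₀ < |x - y|} := hy
          unfold kf
          rw [indicator_of_mem h2, indicator_of_mem h3]
        exact tendsto_const_nhds.congr' (hev.mono fun ε h => h.symm)
      · have hev : ∀ᶠ ε in 𝓝[>] ε₀, kf f ε x y = kf f ε₀ x y := by
          filter_upwards [self_mem_nhdsWithin] with ε hε
          have h2 : y ∉ {y : ℝ | ε < |x - y|} := fun h => hy ((mem_Ioi.1 hε).trans h)
          have h3 : y ∉ {y : ℝ | ε₀ < |x - y|} := hy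
          unfold kf
          rw [indicator_of_notMem h2, indicator_of_notMem h3]
        exact tendsto_const_nhds.congr' (hev.mono fun ε h => h.symm)
  have h2 := h1.const_mul (1 / (π : ℂ))
  simp only [← truncH_kf] at h2
  exact h2

/-- Positive rationals. -/
abbrev Qp := {q : ℚ // 0 < q}

/-- The filter of positive rationals tending to `0`. -/
def lq : Filter Qp := comap (fun q : Qp => ((q.1 : ℚ) : ℝ)) (𝓝[>] (0 : ℝ))

instance : lq.IsCountablyGenerated := by
  unfold lq; infer_instance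

theorem lq_tendsto : Tendsto (fun q : Qp => ((q.1 : ℚ) : ℝ)) lq (𝓝[>] (0 : ℝ)) := tendsto_comap

theorem hasHilbert_iff {f : ℝ → ℂ} (hf : Integrable f) (hm : Measurable f) (x : ℝ) (v : ℂ) :
    HasHilbert f x v ↔ Tendsto (fun q : Qp => truncH f ((q.1 : ℚ) : ℝ) x) lq (𝓝 v) := by
  constructor
  · intro h
    have h' : Tendsto (fun ε : ℝ => truncH f ε x) (𝓝[>] (0 : ℝ)) (𝓝 v) := h
    exact h'.comp lq_tendsto
  · intro h
    unfold HasHilbert
    rw [Metric.tendsto_nhds] at h ⊢
    intro δ hδ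
    have h1 := h (δ / 2) (by linarith)
    unfold lq at h1
    rw [eventually_comap] at h1
    obtain ⟨η, hη, h2⟩ := mem_nhdsGT_iff_exists_Ioo_subset.1 h1
    have hη' : (0 : ℝ) < η := hη
    have h4 : Ioo (0 : ℝ) η ∈ 𝓝[>] (0 : ℝ) := Ioo_mem_nhdsGT hη'
    filter_upwards [h4] with ε hε
    have h5 : truncH f ε x ∈ Metric.closedBall v (δ / 2) := by
      refine Metric.isClosed_closedBall.mem_of_frequently_of_tendsto ?_ (truncH_right hf hm x hε.1)
      rw [frequently_iff]
      intro U hU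
      obtain ⟨u, hu, hU'⟩ := mem_nhdsGT_iff_exists_Ioo_subset.1 hU
      have hu' : ε < u := hu
      obtain ⟨q, hq1, hq2⟩ := exists_rat_btwn (lt_min hu' hε.2)
      have hq0 : (0 : ℝ) < (q : ℝ) := hε.1.trans hq1
      refine ⟨(q : ℝ), hU' ⟨hq1, hq2.trans_le (min_le_left _ _)⟩, ?_⟩
      have h6 := h2 ⟨hq0, hq2.trans_le (min_le_right _ _)⟩
      have h7 := h6 ⟨q, by exact_mod_cast hq0⟩ rfl
      exact Metric.mem_closedBall.2 h7.le
    have h8 := Metric.mem_closedBall.1 h5
    linarith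

theorem hilbert_measurable_aux {f : ℝ → ℂ} (hf : Integrable f) (hm : Measurable f) :
    Measurable (hilbert f) := by
  have hA : MeasurableSet {x | ∃ c, Tendsto (fun q : Qp => truncH f ((q.1 : ℚ) : ℝ) x) lq (𝓝 c)} :=
    MeasureTheory.measurableSet_exists_tendsto (fun q => truncH_meas hm _)
  set A : Set ℝ := {x | ∃ c, Tendsto (fun q : Qp => truncH f ((q.1 : ℚ) : ℝ) x) lq (𝓝 c)} with hAd
  have hd : Tendsto (fun n : ℕ => (1 : ℝ) / ((n : ℝ) + 1)) atTop (𝓝[>] (0 : ℝ)) := by
    refine tendsto_nhdsWithin_iff.2 ⟨tendsto_one_div_add_atTop_nhds_zero_nat, ?_⟩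
    exact Eventually.of_forall (fun n => by
      show (0 : ℝ) < 1 / ((n : ℝ) + 1)
      positivity)
  have hg : ∀ n : ℕ, Measurable (A.indicator fun x => truncH f (1 / ((n : ℝ) + 1)) x) := fun n =>
    (truncH_meas hm _).indicator hA
  refine measurable_of_tendsto_metrizable hg ?_
  rw [tendsto_pi_nhds]
  intro x
  by_cases hx : x ∈ A
  · obtain ⟨c, hc⟩ := hx
    have h1 := (hasHilbert_iff hf hm x c).2 hc
    rw [hilbert_eq h1]
    have hx' : x ∈ A := ⟨c, hc⟩
    simp only [indicator_of_mem hx']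
    have h2 : Tendsto (fun ε : ℝ => truncH f ε x) (𝓝[>] (0 : ℝ)) (𝓝 c) := h1
    exact h2.comp hd
  · have h1 : ¬ ∃ v, HasHilbert f x v := by
      rintro ⟨v, hv⟩
      exact hx ⟨v, (hasHilbert_iff hf hm x v).1 hv⟩
    rw [hilbert_eq_zero h1]
    simp only [indicator_of_notMem hx]
    exact tendsto_const_nhds

/-- The Hilbert transform of an integrable function is (everywhere) measurable. -/
theorem hilbert_measurable {f : ℝ → ℂ} (hf : Integrable f) : Measurable (hilbert f) := by
  have h := hf.aestronglyMeasurable.ae_eq_mk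
  rw [hilbert_congr h]
  exact hilbert_measurable_aux (hf.congr h) hf.aestronglyMeasurable.stronglyMeasurable_mk.measurable

end Pool.Agent.U876.HW
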