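import Pool.Agent.U481.HW.Stm
import Pool.Agent.U876.HW.Meas

set_option autoImplicit false

/-!
Project HW, package EXT: `S_hmw → S_ext`.
-/

open MeasureTheory Filter Topology Set
open scoped ENNReal NNReal Real

namespace Pool.Agent.U876.HW

open Pool.Dav Pool.Agent.U481.HW

/-- From `Ap` to `ApC`. -/
theorem apC_of_ap {p : ℝ} (hp : 1 < p) {W : ℝ → ℝ≥0} (hW : Ap p W) :
    ∃ K : ℝ≥0∞, ApC p (fun x => (W x : ℝ≥0∞)) K := by
  obtain ⟨hw, K, hK, hap⟩ := hW
  have hp1 : (0 : ℝ) < p - 1 := by linarith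
  refine ⟨K, ?_, hw.fin, ?_, hK, hap⟩
  · exact hw.meas.coe_nnreal_ennreal
  · intro a b
    -- an interval with positive integral
    have hex : ∃ n : ℕ, (∫⁻ x in Ioo (-(n : ℝ)) n, (W x : ℝ≥0∞)) ≠ 0 := by
      by_contra hne
      push Not at hne
      apply hw.ne
      have h1 : ∀ n : ℕ, ∀ᵐ x, x ∈ Ioo (-(n : ℝ)) n → W x = 0 := by
        intro n
        have h2 := (lintegral_eq_zero_iff (μ := volume.restrict (Ioo (-(n : ℝ)) n))
          hw.meas.coe_nnreal_ennreal).1 (hne n)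
        have h3 := (ae_restrict_iff' (measurableSet_Ioo (a := -(n : ℝ)) (b := (n : ℝ)))).1 h2
        filter_upwards [h3] with x hx hx'
        have := hx hx'
        simpa using this
      rw [← ae_all_iff] at h1
      filter_upwards [h1] with x hx
      obtain ⟨n, hn⟩ := exists_nat_gt |x|
      exact hx n (abs_lt.1 hn)
    obtain ⟨n, hn⟩ := hex
    obtain ⟨m, hm⟩ := exists_nat_gt (max (n : ℝ) (max |a| |b|))
    have hm1 : (n : ℝ) < m := lt_of_le_of_lt (le_max_left _ _) hm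
    have hm2 : |a| < m := lt_of_le_of_lt ((le_max_left _ _).trans (le_max_right _ _)) hm
    have hm3 : |b| < m := lt_of_le_of_lt ((le_max_right _ _).trans (le_max_right _ _)) hm
    have hm0 : (0 : ℝ) < m := lt_of_le_of_lt (abs_nonneg a) hm2
    have h4 := hap (-(m : ℝ)) m (by linarith)
    have h5 : (∫⁻ x in Ioo (-(m : ℝ)) m, (W x : ℝ≥0∞)) ≠ 0 := by
      intro h0
      apply hn
      have : (∫⁻ x in Ioo (-(n : ℝ)) n, (W x : ℝ≥0∞)) ≤ ∫⁻ x in Ioo (-(m : ℝ)) m, (W x : ℝ≥0∞) :=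
        lintegral_mono_set (Ioo_subset_Ioo (by linarith) hm1.le)
      rw [h0] at this
      exact le_antisymm this zero_le
    have h6 : K * ENNReal.ofReal ((m : ℝ) - -(m : ℝ)) ^ p < ⊤ := by
      apply ENNReal.mul_lt_top hK
      exact ENNReal.rpow_lt_top_of_nonneg (by linarith) ENNReal.ofReal_ne_top
    have h7 : (∫⁻ x in Ioo (-(m : ℝ)) m, (W x : ℝ≥0∞) ^ (-1 / (p - 1))) < ⊤ := by
      by_contra htop
      rw [not_lt, top_le_iff] at htop
      rw [htop, ENNReal.top_rpow_of_pos hp1, ENNReal.mul_top h5] at h4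
      exact absurd (h4.trans_lt h6) (lt_irrefl _)
    refine lt_of_le_of_lt (lintegral_mono_set (Ioo_subset_Ioo ?_ ?_)) h7
    · have := (abs_lt.1 hm2).1
      linarith
    · have := (abs_lt.1 hm3).2
      linarith

/-- The cut function. -/
noncomputable def cut (g : ℝ → ℂ) (n : ℕ) : ℝ → ℂ := {y : ℝ | |y| ≤ n}.indicator g

theorem meas_cut (n : ℕ) : MeasurableSet {y : ℝ | |y| ≤ n} :=
  measurableSet_le (by fun_prop) measurable_const

theorem one_add_ne (y : ℝ) : ((1 + |y| : ℝ) : ℂ) ≠ 0 := by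
  have : (0 : ℝ) < 1 + |y| := by positivity
  exact_mod_cast this.ne'

/-- Integrability of `g(y)/(x-y)` away from `x`. -/
theorem int_away {g : ℝ → ℂ} (hm : AEStronglyMeasurable g volume)
    (hg : Integrable (fun y => g y / ((1 + |y| : ℝ) : ℂ))) {ε : ℝ} (hε : 0 < ε) (x : ℝ) :
    IntegrableOn (fun y => g y / ((x : ℂ) - (y : ℂ))) {y : ℝ | ε < |x - y|} := by
  have hc : (0 : ℝ) < (1 + |x|) / ε + 1 := by positivity
  refine Integrable.mono' ((hg.norm.const_mul ((1 + |x|) / ε + 1)).integrableOn) ?_ ?_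
  · have h1 : AEStronglyMeasurable (fun y : ℝ => ((x : ℂ) - (y : ℂ))⁻¹) volume := by
      apply Measurable.aestronglyMeasurable
      fun_prop
    have h2 := hm.mul h1
    exact h2.restrict
  · rw [ae_restrict_iff' (meas_set ε x)]
    refine Eventually.of_forall fun y hy => ?_
    have hy' : ε < |x - y| := hy
    have hxy : 0 < |x - y| := hε.trans hy'
    rw [norm_div, norm_div, ← Complex.ofReal_sub, Complex.norm_real, Complex.norm_real,
      Real.norm_eq_abs, Real.norm_eq_abs]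
    have h1 : (0 : ℝ) < 1 + |y| := by positivity
    rw [abs_of_pos h1, div_le_iff₀ hxy, mul_assoc, div_mul_eq_mul_div, mul_div_assoc',
      le_div_iff₀ h1]
    have h2 : 1 + |y| ≤ ((1 + |x|) / ε + 1) * |x - y| := by
      have h3 : |y| ≤ |x| + |x - y| := by
        have := abs_sub_abs_le_abs_sub y x
        rw [abs_sub_comm y x] at this
        linarith
      have h4 : 1 + |x| ≤ (1 + |x|) / ε * |x - y| := by
        rw [div_mul_eq_mul_div, le_div_iff₀ hε]
        have : 0 ≤ 1 + |x| := by positivity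
        nlinarith [abs_nonneg x]
      nlinarith
    calc ‖g y‖ * (1 + |y|) ≤ ‖g y‖ * (((1 + |x|) / ε + 1) * |x - y|) :=
          mul_le_mul_of_nonneg_left h2 (norm_nonneg _)
      _ = _ := by ring

/-- The remainder. -/
noncomputable def Rm (g : ℝ → ℂ) (n : ℕ) (x : ℝ) : ℂ :=
  (1 / (π : ℂ)) * ∫ y in {y : ℝ | (n : ℝ) < |y|}, g y / ((x : ℂ) - (y : ℂ))

theorem meas_far (n : ℕ) : MeasurableSet {y : ℝ | (n : ℝ) < |y|} :=
  measurableSet_lt measurable_const (by fun_prop)

theorem far_sub {n : ℕ} {x ε : ℝ} (hn : |x| + 1 < n) (hε : ε < 1) :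
    {y : ℝ | (n : ℝ) < |y|} ⊆ {y : ℝ | ε < |x - y|} := by
  intro y hy
  have hy' : (n : ℝ) < |y| := hy
  show ε < |x - y|
  have := abs_sub_abs_le_abs_sub y x
  rw [abs_sub_comm y x] at this
  linarith

theorem trunc_cut {g : ℝ → ℂ} (hm : AEStronglyMeasurable g volume)
    (hg : Integrable (fun y => g y / ((1 + |y| : ℝ) : ℂ))) {ε : ℝ} (hε : 0 < ε) (hε1 : ε < 1)
    {n : ℕ} {x : ℝ} (hn : |x| + 1 < n) :
    truncH g ε x = truncH (cut g n) ε x + Rm g n x := by
  unfold truncH Rm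
  rw [← mul_add]
  congr 1
  have hI := int_away hm hg hε x
  have hfar := far_sub (x := x) hn hε1
  have h1 : (∫ y in {y : ℝ | ε < |x - y|}, cut g n y / ((x : ℂ) - (y : ℂ)))
      = ∫ y in {y : ℝ | ε < |x - y|} \ {y : ℝ | (n : ℝ) < |y|}, g y / ((x : ℂ) - (y : ℂ)) := by
    have e : (fun y : ℝ => cut g n y / ((x : ℂ) - (y : ℂ)))
        = ({y : ℝ | |y| ≤ n}).indicator (fun y => g y / ((x : ℂ) - (y : ℂ))) := by
      funext y
      unfold cut
      by_cases hy : y ∈ {y : ℝ | |y| ≤ n}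
      · rw [indicator_of_mem hy, indicator_of_mem hy]
      · rw [indicator_of_notMem hy, indicator_of_notMem hy, zero_div]
    rw [e, setIntegral_indicator (meas_cut n)]
    congr 2
    ext y
    simp only [mem_inter_iff, Set.mem_sdiff, mem_ofPred_eq, not_lt]
  rw [h1, ← setIntegral_union disjoint_sdiff_left (meas_far n)
    (hI.mono_set sdiff_subset) (hI.mono_set hfar), sdiff_union_of_subset hfar]

theorem hasHilbert_cut {g : ℝ → ℂ} (hm : AEStronglyMeasurable g volume)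
    (hg : Integrable (fun y => g y / ((1 + |y| : ℝ) : ℂ)))
    {n : ℕ} {x : ℝ} (hn : |x| + 1 < n) (v : ℂ) :
    HasHilbert (cut g n) x v ↔ HasHilbert g x (v + Rm g n x) := by
  have hev : (fun ε => truncH g ε x) =ᶠ[𝓝[>] (0 : ℝ)]
      fun ε => truncH (cut g n) ε x + Rm g n x := by
    filter_upwards [Ioo_mem_nhdsGT (zero_lt_one' ℝ)] with ε hε
    exact trunc_cut hm hg hε.1 hε.2 hn
  unfold HasHilbert
  rw [tendsto_congr' hev]
  constructor
  · intro h
    exact h.add_const _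
  · intro h
    have := h.sub_const (Rm g n x)
    simpa using this

theorem Rm_tendsto {g : ℝ → ℂ} (hm : AEStronglyMeasurable g volume)
    (hg : Integrable (fun y => g y / ((1 + |y| : ℝ) : ℂ))) (x : ℝ) :
    Tendsto (fun n : ℕ => Rm g n x) atTop (𝓝 0) := by
  obtain ⟨N, hN⟩ := exists_nat_gt (|x| + 1)
  have hI := int_away hm hg (ε := 1 / 2) (by norm_num) x
  have hN' : IntegrableOn (fun y => g y / ((x : ℂ) - (y : ℂ))) {y : ℝ | (N : ℝ) < |y|} :=
    hI.mono_set (far_sub hN (by norm_num))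
  have h1 := tendsto_setIntegral_of_antitone (μ := volume)
    (s := fun n : ℕ => {y : ℝ | (n : ℝ) < |y|}) (f := fun y => g y / ((x : ℂ) - (y : ℂ)))
    (fun n => meas_far n) (by
      intro a b hab y hy
      have hy' : (b : ℝ) < |y| := hy
      have hab' : (a : ℝ) ≤ b := by exact_mod_cast hab
      exact lt_of_le_of_lt hab' hy') ⟨N, hN'⟩
  have h2 : (⋂ n : ℕ, {y : ℝ | (n : ℝ) < |y|}) = ∅ := by
    rw [eq_empty_iff_forall_notMem]
    intro y hy
    obtain ⟨n, hn⟩ := exists_nat_gt |y|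
    have h3 : (n : ℝ) < |y| := mem_iInter.1 hy n
    exact lt_asymm h3 hn
  rw [h2, setIntegral_empty] at h1
  have h3 := h1.const_mul (1 / (π : ℂ))
  rw [mul_zero] at h3
  exact h3

/-- The transforms of the cut functions tend to the transform, at every point. -/
theorem hilbert_cut_tendsto {g : ℝ → ℂ} (hm : AEStronglyMeasurable g volume)
    (hg : Integrable (fun y => g y / ((1 + |y| : ℝ) : ℂ))) (x : ℝ) :
    Tendsto (fun n : ℕ => hilbert (cut g n) x) atTop (𝓝 (hilbert g x)) := by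
  obtain ⟨N, hN⟩ := exists_nat_gt (|x| + 1)
  have hbig : ∀ n : ℕ, N ≤ n → |x| + 1 < n := fun n hn =>
    lt_of_lt_of_le hN (by exact_mod_cast hn)
  by_cases hex : ∃ v, HasHilbert g x v
  · obtain ⟨v, hv⟩ := hex
    rw [hilbert_eq hv]
    have h1 : Tendsto (fun n : ℕ => v - Rm g n x) atTop (𝓝 v) := by
      have := (Rm_tendsto hm hg x).const_sub v
      simpa using this
    refine h1.congr' ?_
    filter_upwards [eventually_ge_atTop N] with n hn
    have h2 : HasHilbert (cut g n) x (v - Rm g n x) := by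
      rw [hasHilbert_cut hm hg (hbig n hn), sub_add_cancel]
      exact hv
    rw [hilbert_eq h2]
  · rw [hilbert_eq_zero hex]
    refine tendsto_const_nhds.congr' ?_
    filter_upwards [eventually_ge_atTop N] with n hn
    have h2 : ¬ ∃ v, HasHilbert (cut g n) x v := by
      rintro ⟨v, hv⟩
      exact hex ⟨_, (hasHilbert_cut hm hg (hbig n hn) v).1 hv⟩
    rw [hilbert_eq_zero h2]

theorem cut_integrable {g : ℝ → ℂ} (hm : AEStronglyMeasurable g volume)
    (hg : Integrable (fun y => g y / ((1 + |y| : ℝ) : ℂ))) (n : ℕ) : Integrable (cut g n) := by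
  refine Integrable.mono' (hg.norm.const_mul (1 + (n : ℝ))) (hm.indicator (meas_cut n)) ?_
  refine Eventually.of_forall fun y => ?_
  have h1 : (0 : ℝ) < 1 + |y| := by positivity
  rw [norm_div, Complex.norm_real, Real.norm_eq_abs, abs_of_pos h1]
  unfold cut
  by_cases hy : y ∈ {y : ℝ | |y| ≤ n}
  · rw [indicator_of_mem hy, mul_div_assoc', le_div_iff₀ h1]
    have hy' : |y| ≤ n := hy
    have := norm_nonneg (g y)
    nlinarith
  · rw [indicator_of_notMem hy, norm_zero]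
    positivity

/-- PACKAGE EXT. -/
theorem main : S_hmw → S_ext := by
  intro hS p hp W hW
  obtain ⟨K, hK⟩ := apC_of_ap hp hW
  obtain ⟨C, hC, hb⟩ := hS p hp _ K hK
  refine ⟨C, hC, ?_⟩
  intro g hm hg
  have hp0 : (0 : ℝ) ≤ p := by linarith
  have hp0' : (0 : ℝ) < p := by linarith
  have hWm : Measurable (fun x => (W x : ℝ≥0∞)) := hW.1.meas.coe_nnreal_ennreal
  have hint : ∀ n, Integrable (cut g n) := cut_integrable hm hg
  have hmeas : ∀ n : ℕ, Measurable (fun x => ‖hilbert (cut g n) x‖ₑ ^ p * (W x : ℝ≥0∞)) := by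
    intro n
    have h1 := (hilbert_measurable (hint n)).enorm
    exact (h1.pow_const p).mul hWm
  have hbound : ∀ n : ℕ, (∫⁻ x, ‖hilbert (cut g n) x‖ₑ ^ p * (W x : ℝ≥0∞))
      ≤ C * ∫⁻ x, ‖g x‖ₑ ^ p * (W x : ℝ≥0∞) := by
    intro n
    refine (hb (cut g n) (hint n) ⟨n, fun x hx => ?_⟩).trans ?_
    · unfold cut
      rw [indicator_of_notMem]
      exact not_le.2 hx
    · gcongr with x
      unfold cut
      by_cases hx : x ∈ {y : ℝ | |y| ≤ n}
      · rw [indicator_of_mem hx]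
      · rw [indicator_of_notMem hx, enorm_zero]
        exact zero_le
  have hlim : ∀ x, liminf (fun n : ℕ => ‖hilbert (cut g n) x‖ₑ ^ p * (W x : ℝ≥0∞)) atTop
      = ‖hilbert g x‖ₑ ^ p * (W x : ℝ≥0∞) := by
    intro x
    apply Tendsto.liminf_eq
    apply ENNReal.Tendsto.mul_const
    · exact (ENNReal.continuous_rpow_const.tendsto _).comp
        ((continuous_enorm.tendsto _).comp (hilbert_cut_tendsto hm hg x))
    · right
      exact ENNReal.coe_ne_top
  calc (∫⁻ x, ‖hilbert g x‖ₑ ^ p * (W x : ℝ≥0∞))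
      = ∫⁻ x, liminf (fun n : ℕ => ‖hilbert (cut g n) x‖ₑ ^ p * (W x : ℝ≥0∞)) atTop := by
        simp only [hlim]
    _ ≤ liminf (fun n : ℕ => ∫⁻ x, ‖hilbert (cut g n) x‖ₑ ^ p * (W x : ℝ≥0∞)) atTop :=
        lintegral_liminf_le hmeas
    _ ≤ liminf (fun _ : ℕ => C * ∫⁻ x, ‖g x‖ₑ ^ p * (W x : ℝ≥0∞)) atTop :=
        liminf_le_liminf (Eventually.of_forall hbound)
    _ = C * ∫⁻ x, ‖g x‖ₑ ^ p * (W x : ℝ≥0∞) := by simp

end Pool.Agent.U876.HW
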